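import Pool.Agent.Lib.MP_6bc78b_nt.GP.H62.Defs7
import Pool.Agent.Lib.MP_6bc78b_nt.GP.H91.Chb6a
import Pool.Agent.Lib.MP_6bc78b_nt.MS.P4.H30.Zfac
import Pool.Agent.Lib.MP_6bc78b_nt.MS.P1.POLY

/-! Project GP10, step (3) (helper33): sums over the zeros of `‖ζ'(ρ)‖ ‖B(ρ)‖` for a Dirichlet
polynomial `B`, and the contribution of the far zeros. -/

set_option autoImplicit false

open Complex Filter Topology MeasureTheory ArithmeticFunction Set
open scoped ENNReal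

namespace Pool.Agent.Lib.MP_6bc78b_nt.GP.H33F

open Pool.Agent.Lib.MP_6bc78b_nt Pool.Agent.Lib.MP_6bc78b_nt.MS Pool.Agent.Lib.MP_6bc78b_nt.MS.P1
open Pool.Agent.Lib.MP_6bc78b_nt.GP.G7

/-- One point of an interval of length 1. -/
theorem sob1 {f f1 : ℝ → ℂ} (hf : ∀ x, HasDerivAt f (f1 x) x) (hc : Continuous f1) {a x : ℝ}
    (h1 : a ≤ x) (h2 : x ≤ a + 1) :
    ‖f x‖ ^ 2 ≤ ∫ y in a..(a + 1), (2 * ‖f y‖ ^ 2 + ‖f1 y‖ ^ 2) := by
  have hfc : Continuous f := continuous_iff_continuousAt.2 fun x => (hf x).continuousAt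
  have ha : a ≤ a + 1 := by linarith
  have hg : Continuous fun y => ‖f y‖ ^ 2 := by fun_prop
  have hg1 : Continuous fun y => ‖f1 y‖ ^ 2 := by fun_prop
  obtain ⟨y, hy, hmin⟩ := isCompact_Icc.exists_isMinOn (nonempty_Icc.2 ha) hg.continuousOn
  have e1 : ‖f y‖ ^ 2 ≤ ∫ y in a..(a + 1), ‖f y‖ ^ 2 := by
    have h3 : ∫ _ in a..(a + 1), ‖f y‖ ^ 2 = ‖f y‖ ^ 2 := by simp
    rw [← h3]
    refine intervalIntegral.integral_mono_on ha (by simp) (hg.intervalIntegrable _ _) ?_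
    intro z hz
    exact hmin hz
  have hd : ∀ z : ℝ, HasDerivAt (fun y => ‖f y‖ ^ 2) (2 * inner ℝ (f z) (f1 z)) z :=
    fun z => (hf z).norm_sq
  have hdc : Continuous fun z => 2 * inner ℝ (f z) (f1 z) :=
    continuous_const.mul (hfc.inner hc)
  have e2 : ‖f x‖ ^ 2 - ‖f y‖ ^ 2 = ∫ z in y..x, 2 * inner ℝ (f z) (f1 z) :=
    (intervalIntegral.integral_eq_sub_of_hasDerivAt (fun z _ => hd z)
      (hdc.intervalIntegrable _ _)).symm
  have hb : ∀ z, |2 * inner ℝ (f z) (f1 z)| ≤ ‖f z‖ ^ 2 + ‖f1 z‖ ^ 2 := by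
    intro z
    rw [abs_mul, abs_two]
    have h4 := abs_real_inner_le_norm (f z) (f1 z)
    nlinarith [sq_nonneg (‖f z‖ - ‖f1 z‖)]
  have hsub : uIoc y x ⊆ Ioc a (a + 1) := by
    intro z hz
    rcases le_total y x with h | h
    · rw [uIoc_of_le h] at hz
      exact ⟨lt_of_le_of_lt hy.1 hz.1, hz.2.trans h2⟩
    · rw [uIoc_of_ge h] at hz
      exact ⟨lt_of_le_of_lt h1 hz.1, hz.2.trans hy.2⟩
  have hsum : Continuous fun z => ‖f z‖ ^ 2 + ‖f1 z‖ ^ 2 := hg.add hg1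
  have e3 : |∫ z in y..x, 2 * inner ℝ (f z) (f1 z)| ≤
      ∫ z in a..(a + 1), (‖f z‖ ^ 2 + ‖f1 z‖ ^ 2) := by
    rw [← Real.norm_eq_abs]
    refine (intervalIntegral.norm_integral_le_integral_norm_uIoc).trans ?_
    rw [intervalIntegral.integral_of_le ha]
    refine le_trans (setIntegral_mono_on (g := fun z => ‖f z‖ ^ 2 + ‖f1 z‖ ^ 2) ?_ ?_
      measurableSet_uIoc fun z _ => by rw [Real.norm_eq_abs]; exact hb z) ?_
    · exact (hdc.norm.integrableOn_uIcc (a := y) (b := x)).mono_set uIoc_subset_uIcc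
    · exact (hsum.integrableOn_uIcc (a := y) (b := x)).mono_set uIoc_subset_uIcc
    · refine setIntegral_mono_set ?_ (Eventually.of_forall fun z => by positivity)
        (LE.le.eventuallyLE hsub)
      exact (hsum.integrableOn_Icc (a := a) (b := a + 1)).mono_set Ioc_subset_Icc_self
  have e4 : ∫ y in a..(a + 1), (2 * ‖f y‖ ^ 2 + ‖f1 y‖ ^ 2) =
      (∫ y in a..(a + 1), ‖f y‖ ^ 2) + ∫ z in a..(a + 1), (‖f z‖ ^ 2 + ‖f1 z‖ ^ 2) := by
    rw [← intervalIntegral.integral_add (hg.intervalIntegrable _ _)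
      (hsum.intervalIntegrable _ _)]
    refine intervalIntegral.integral_congr fun z _ => ?_
    ring
  have h5 := le_abs_self (∫ z in y..x, 2 * inner ℝ (f z) (f1 z))
  linarith

/-- The zeros in `(T/2, 4T)`. -/
theorem sobz : ∃ C T0 : ℝ, 0 < C ∧ 10 < T0 ∧ ∀ (f f1 : ℝ → ℂ), (∀ x, HasDerivAt f (f1 x) x) →
    Continuous f1 → ∀ T : ℝ, T0 ≤ T → ∀ S : Finset ℝ,
    (∀ γ ∈ S, T / 2 < γ ∧ γ < 4 * T ∧ riemannZeta (1 / 2 + γ * I) = 0) →
    ∑ γ ∈ S, ‖f γ‖ ^ 2 ≤ C * Real.log T * ∫ y in (0 : ℝ)..(5 * T), (2 * ‖f y‖ ^ 2 + ‖f1 y‖ ^ 2) := by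
  obtain ⟨T1, hT1, hw⟩ := H11.mult_window
  obtain ⟨hz0, -, hmz1, -, -, -, -⟩ := MS.P4.H30.zfac
  have hc : 0 < Real.cosh (Real.pi / 2) := Real.cosh_pos _
  refine ⟨2 * Real.cosh (Real.pi / 2), 2 * T1 + 11, by positivity, by linarith,
    fun f f1 hf hf1 T hT S hS => ?_⟩
  have hfc : Continuous f := continuous_iff_continuousAt.2 fun x => (hf x).continuousAt
  have hint : Continuous fun y => 2 * ‖f y‖ ^ 2 + ‖f1 y‖ ^ 2 := by fun_prop
  have hnn : ∀ y, 0 ≤ 2 * ‖f y‖ ^ 2 + ‖f1 y‖ ^ 2 := fun y => by positivity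
  set N : ℕ := ⌊4 * T + 1 / 2⌋₊ with hN
  have hL : Real.log (4 * T + 1) ≤ 2 * Real.log T := by
    have h1 : (2 : ℝ) * Real.log T = Real.log (T ^ 2) := by
      rw [Real.log_pow]; norm_num
    rw [h1]
    exact Real.log_le_log (by linarith) (by nlinarith)
  have hlogT : 0 ≤ Real.log T := Real.log_nonneg (by linarith)
  have hmaps : ∀ γ ∈ S, ⌊γ + 1 / 2⌋₊ ∈ Finset.Ico 1 (N + 1) := by
    intro γ hγ
    have h2 := hS γ hγ
    rw [Finset.mem_Ico]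
    constructor
    · rw [Nat.one_le_floor_iff]
      linarith
    · rw [Nat.lt_add_one_iff, hN]
      exact Nat.floor_le_floor (by linarith)
  rw [← Finset.sum_fiberwise_of_maps_to hmaps]
  have hterm : ∀ n ∈ Finset.Ico 1 (N + 1), ∑ γ ∈ S with ⌊γ + 1 / 2⌋₊ = n, ‖f γ‖ ^ 2 ≤
      2 * Real.cosh (Real.pi / 2) * Real.log T *
        ∫ y in ((n : ℝ) - 1 / 2)..(((n + 1 : ℕ) : ℝ) - 1 / 2), (2 * ‖f y‖ ^ 2 + ‖f1 y‖ ^ 2) := by
    intro n hn
    have hn1 : ((n + 1 : ℕ) : ℝ) - 1 / 2 = (n : ℝ) - 1 / 2 + 1 := by push_cast; ring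
    rw [hn1]
    have hI : 0 ≤ ∫ y in ((n : ℝ) - 1 / 2)..((n : ℝ) - 1 / 2 + 1),
        (2 * ‖f y‖ ^ 2 + ‖f1 y‖ ^ 2) :=
      intervalIntegral.integral_nonneg (by linarith) fun y _ => hnn y
    by_cases hemp : (S.filter fun γ => ⌊γ + 1 / 2⌋₊ = n).Nonempty
    · have habs : ∀ γ ∈ S.filter (fun γ => ⌊γ + 1 / 2⌋₊ = n),
          (n : ℝ) - 1 / 2 ≤ γ ∧ γ ≤ (n : ℝ) - 1 / 2 + 1 := by
        intro γ hγ
        rw [Finset.mem_filter] at hγ
        have h2 := hS γ hγ.1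
        have h3 := Nat.floor_le (a := γ + 1 / 2) (by linarith)
        have h4 := Nat.lt_floor_add_one (γ + 1 / 2)
        rw [hγ.2] at h3 h4
        constructor <;> linarith
      refine (Finset.sum_le_sum fun γ hγ => sob1 hf hf1 (habs γ hγ).1 (habs γ hγ).2).trans ?_
      rw [Finset.sum_const, nsmul_eq_mul]
      refine mul_le_mul_of_nonneg_right ?_ hI
      obtain ⟨γ₀, hγ₀⟩ := hemp
      have h5 := habs γ₀ hγ₀
      have h6 := hS γ₀ (Finset.mem_filter.1 hγ₀).1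
      have hn0 : 0 < (n : ℝ) := by linarith
      have h7 := hw n (by rw [abs_of_pos hn0]; linarith) (S.filter fun γ => ⌊γ + 1 / 2⌋₊ = n)
        (fun γ hγ => by
          have h8 := habs γ hγ
          rw [abs_le]
          constructor <;> linarith)
      rw [abs_of_pos hn0] at h7
      have h9 : (((S.filter fun γ => ⌊γ + 1 / 2⌋₊ = n).card : ℕ) : ℝ) ≤
          ∑ γ ∈ S.filter (fun γ => ⌊γ + 1 / 2⌋₊ = n), (zeroMult γ : ℝ) := by
        rw [Finset.card_eq_sum_ones, Nat.cast_sum]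
        refine Finset.sum_le_sum fun γ hγ => ?_
        have h10 := hmz1 γ (hS γ (Finset.mem_filter.1 hγ).1).2.2
        rw [MS.P4.H30.mz_eq γ] at h10
        exact_mod_cast h10
      refine h9.trans (h7.trans ?_)
      have h11 : Real.log n ≤ 2 * Real.log T :=
        (Real.log_le_log hn0 (by linarith)).trans hL
      nlinarith
    · rw [Finset.not_nonempty_iff_eq_empty] at hemp
      rw [hemp, Finset.sum_empty]
      positivity
  refine (Finset.sum_le_sum hterm).trans ?_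
  rw [← Finset.mul_sum]
  refine mul_le_mul_of_nonneg_left ?_ (by positivity)
  have hadj := intervalIntegral.sum_integral_adjacent_intervals_Ico (μ := volume)
    (f := fun y => 2 * ‖f y‖ ^ 2 + ‖f1 y‖ ^ 2) (a := fun n : ℕ => (n : ℝ) - 1 / 2)
    (m := 1) (n := N + 1) (by omega) (fun k _ => hint.intervalIntegrable _ _)
  rw [hadj]
  refine intervalIntegral.integral_mono_interval (by norm_num) (by push_cast; linarith [Nat.cast_nonneg (α := ℝ) N])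
    ?_ (Eventually.of_forall hnn) (hint.intervalIntegrable _ _)
  have h12 : (N : ℝ) ≤ 4 * T + 1 / 2 := Nat.floor_le (by linarith)
  push_cast
  linarith

/-- The zeta part. -/
theorem zsq (hcel : CELStatement) (hmom : MOM6Statement) : ∃ C T0 : ℝ, 0 < C ∧ 10 < T0 ∧
    ∀ T : ℝ, T0 ≤ T → ∀ F : Finset ℝ,
      (∀ γ ∈ F, T / 2 < γ ∧ γ < 4 * T ∧ riemannZeta (1 / 2 + γ * I) = 0) →
      ∑ γ ∈ F, ‖deriv riemannZeta (1 / 2 + γ * I)‖ ^ 2 ≤ C * T * Real.log T ^ 4 := by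
  obtain ⟨C₂, T₂, hC₂, hT₂, h2⟩ := hmom
  refine ⟨C₂, T₂, hC₂, hT₂, fun T hT F hF => ?_⟩
  have hT0 : 10 < T := lt_of_lt_of_le hT₂ hT
  obtain ⟨L, hLdef⟩ : ∃ L, L = Real.log T := ⟨_, rfl⟩
  have g2 := h2 T hT
  rw [← hLdef] at g2 ⊢
  have hL1 : 1 ≤ L := by
    rw [hLdef, ← Real.log_exp 1]
    refine Real.log_le_log (Real.exp_pos _) ?_
    have := Real.exp_one_lt_d9
    linarith
  have hL0 : 0 < L := by linarith
  have h1 := hcel (fun x : ℝ => riemannZeta (1 / 2 + x * I))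
    (fun x : ℝ => deriv riemannZeta (1 / 2 + x * I) * I)
    (fun x : ℝ => deriv (deriv riemannZeta) (1 / 2 + x * I) * I * I) H91K.hd0 H91K.hd1
    ((H91K.cont2.mul continuous_const).mul continuous_const) (T / 2) (4 * T) (1 / L)
    (by linarith) (by positivity) F (fun γ hγ => by
      obtain ⟨h2, h3, h4⟩ := hF γ hγ
      exact ⟨by linarith, by linarith, h4⟩)
  have e1 : ∀ z : ℂ, ‖z * I‖ = ‖z‖ := fun z => by rw [norm_mul, Complex.norm_I, mul_one]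
  simp only [e1] at h1
  have hiL : 1 / L ≤ 1 := by
    rw [div_le_one hL0]
    exact hL1
  refine h1.trans (le_trans ?_ g2)
  exact intervalIntegral.integral_mono_interval (by linarith) (by linarith [one_div_pos.2 hL0])
    (by linarith) (Filter.Eventually.of_forall fun x => H91K.gg_nonneg hL0 x)
    ((H91K.gg_cont L).intervalIntegrable _ _)

/-- A Dirichlet polynomial on the critical line. -/
noncomputable def BP (c : ℕ → ℂ) (N : ℕ) (t : ℝ) : ℂ :=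
  ∑ n ∈ Finset.Icc 1 N, c n * (n : ℂ) ^ (-(1 / 2 + t * I : ℂ))

theorem BP_eq (c : ℕ → ℂ) (N : ℕ) (t : ℝ) :
    BP c N t = DP (fun n => c n * (n : ℂ) ^ (1 / 2 : ℂ)) N t := by
  unfold BP DP
  refine Finset.sum_congr rfl fun n hn => ?_
  have hn0 : (n : ℂ) ≠ 0 := by
    rw [Finset.mem_Icc] at hn
    exact_mod_cast (by omega : n ≠ 0)
  rw [mul_assoc, ← Complex.cpow_add _ _ hn0]
  congr 2
  ring

theorem BP_deriv (c : ℕ → ℂ) (N : ℕ) (t : ℝ) :
    HasDerivAt (BP c N) (BP (fun n => c n * (-(Real.log n : ℂ) * I)) N t) t := by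
  unfold BP
  refine HasDerivAt.fun_sum fun n hn => ?_
  have hn0 : (n : ℂ) ≠ 0 := by
    rw [Finset.mem_Icc] at hn
    exact_mod_cast (by omega : n ≠ 0)
  have h1 : HasDerivAt (fun t : ℝ => (-(1 / 2 + t * I) : ℂ)) (-I) t := by
    have h2 : HasDerivAt (fun t : ℝ => (t : ℂ)) 1 t := Complex.ofRealCLM.hasDerivAt
    have h3 := ((h2.mul_const I).const_add (1 / 2 : ℂ)).fun_neg
    rwa [one_mul] at h3
  have h4 := (((Complex.hasStrictDerivAt_const_cpow (x := (n : ℂ))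
    (y := (-(1 / 2 + t * I) : ℂ)) (Or.inl hn0)).hasDerivAt).comp t h1).const_mul (c n)
  refine h4.congr_deriv ?_
  rw [← Complex.natCast_log]
  ring

theorem BP_cont (c : ℕ → ℂ) (N : ℕ) : Continuous (BP c N) :=
  continuous_iff_continuousAt.2 fun t => (BP_deriv c N t).continuousAt

/-- The second moment of a Dirichlet polynomial over `[0, 5T]`. -/
theorem BP_sq (hM : MVTXStatement) : ∃ C : ℝ, 0 < C ∧ ∀ (N : ℕ) (c : ℕ → ℂ) (T : ℝ), 1 ≤ T →
    (N : ℝ) ≤ T → ∫ t in (0 : ℝ)..(5 * T), ‖BP c N t‖ ^ 2 ≤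
      C * T * ∑ n ∈ Finset.Icc 1 N, ‖c n‖ ^ 2 / n := by
  obtain ⟨C, hC, h⟩ := hM
  refine ⟨Real.exp 5 * (C * 2), by positivity, fun N c T hT hN => ?_⟩
  have hT0 : 0 < T := by linarith
  have h1 := h N (fun n => c n * (n : ℂ) ^ (1 / 2 : ℂ)) (1 / T) (by positivity)
    (by rw [div_le_one hT0]; exact hT)
  have hle : (0 : ℝ) ≤ 5 * T := by linarith
  have hcont : Continuous fun t => ‖BP c N t‖ ^ 2 := (BP_cont c N).norm.pow 2
  have hnn : ∀ t, 0 ≤ ‖BP c N t‖ ^ 2 := fun t => by positivity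
  rw [intervalIntegral.integral_of_le hle]
  have h2 : ENNReal.ofReal (∫ t in Ioc (0 : ℝ) (5 * T), ‖BP c N t‖ ^ 2) =
      ∫⁻ t in Ioc (0 : ℝ) (5 * T), ENNReal.ofReal (‖BP c N t‖ ^ 2) :=
    ofReal_integral_eq_lintegral_ofReal
      ((hcont.integrableOn_Icc (a := 0) (b := 5 * T)).mono_set Ioc_subset_Icc_self)
      (Eventually.of_forall hnn)
  have h3 : ∫⁻ t in Ioc (0 : ℝ) (5 * T), ENNReal.ofReal (‖BP c N t‖ ^ 2) ≤
      ENNReal.ofReal (Real.exp 5) * ∫⁻ t : ℝ, ENNReal.ofReal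
        (‖DP (fun n => c n * (n : ℂ) ^ (1 / 2 : ℂ)) N t‖ ^ 2 * Real.exp (-(1 / T * |t|))) := by
    rw [← lintegral_const_mul' _ _ ENNReal.ofReal_ne_top]
    refine le_trans (setLIntegral_mono' measurableSet_Ioc fun t ht => ?_)
      (setLIntegral_le_lintegral _ _)
    rw [← ENNReal.ofReal_mul (Real.exp_pos _).le]
    refine ENNReal.ofReal_le_ofReal ?_
    rw [← BP_eq]
    have h4 : 1 ≤ Real.exp 5 * Real.exp (-(1 / T * |t|)) := by
      rw [← Real.exp_add]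
      refine Real.one_le_exp ?_
      rw [abs_of_pos ht.1]
      have : 1 / T * t ≤ 5 := by
        rw [one_div, inv_mul_le_iff₀ hT0]
        linarith [ht.2]
      linarith
    calc ‖BP c N t‖ ^ 2 = ‖BP c N t‖ ^ 2 * 1 := (mul_one _).symm
      _ ≤ ‖BP c N t‖ ^ 2 * (Real.exp 5 * Real.exp (-(1 / T * |t|))) :=
          mul_le_mul_of_nonneg_left h4 (hnn t)
      _ = _ := by ring
  have h5 : ∑ n ∈ Finset.Icc 1 N, (1 / (1 / T) + n) * ‖c n * (n : ℂ) ^ (1 / 2 : ℂ)‖ ^ 2 /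
      (n : ℝ) ^ 2 ≤ 2 * T * ∑ n ∈ Finset.Icc 1 N, ‖c n‖ ^ 2 / n := by
    rw [Finset.mul_sum]
    refine Finset.sum_le_sum fun n hn => ?_
    rw [Finset.mem_Icc] at hn
    have hn0 : (0 : ℝ) < n := by exact_mod_cast (by omega : 0 < n)
    have e1 : ‖c n * (n : ℂ) ^ (1 / 2 : ℂ)‖ ^ 2 = ‖c n‖ ^ 2 * n := by
      have e2 : ‖((n : ℂ) ^ (1 / 2 : ℂ))‖ = (n : ℝ) ^ (1 / 2 : ℝ) := by
        have := Complex.norm_cpow_eq_rpow_re_of_pos hn0 (1 / 2 : ℂ)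
        simpa using this
      rw [norm_mul, mul_pow, e2, ← Real.sqrt_eq_rpow, Real.sq_sqrt hn0.le]
    rw [e1, one_div_one_div]
    have hnT : (n : ℝ) ≤ T := le_trans (by exact_mod_cast hn.2) hN
    rw [div_le_iff₀ (by positivity)]
    have e3 : 2 * T * (‖c n‖ ^ 2 / n) * (n : ℝ) ^ 2 = 2 * T * (‖c n‖ ^ 2 * n) := by
      field_simp
    rw [e3]
    have : 0 ≤ ‖c n‖ ^ 2 * n := by positivity
    nlinarith
  have h6 : ENNReal.ofReal (∫ t in Ioc (0 : ℝ) (5 * T), ‖BP c N t‖ ^ 2) ≤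
      ENNReal.ofReal (Real.exp 5 * (C * (2 * T * ∑ n ∈ Finset.Icc 1 N, ‖c n‖ ^ 2 / n))) := by
    rw [h2]
    refine h3.trans ?_
    rw [ENNReal.ofReal_mul (Real.exp_pos 5).le]
    exact mul_le_mul_right (h1.trans (ENNReal.ofReal_le_ofReal
      (mul_le_mul_of_nonneg_left h5 hC.le))) _
  have h7 : 0 ≤ ∑ n ∈ Finset.Icc 1 N, ‖c n‖ ^ 2 / (n : ℝ) :=
    Finset.sum_nonneg fun n _ => by positivity
  have h8 := (ENNReal.ofReal_le_ofReal_iff (by positivity)).1 h6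
  refine h8.trans (le_of_eq ?_)
  ring

/-- The Dirichlet polynomial at the zeros. -/
theorem bsq (hM : MVTXStatement) : ∃ C T0 : ℝ, 0 < C ∧ 10 < T0 ∧ ∀ T : ℝ, T0 ≤ T →
    ∀ (N : ℕ) (c : ℕ → ℂ), 1 ≤ N → (N : ℝ) ≤ T → ∀ F : Finset ℝ,
      (∀ γ ∈ F, T / 2 < γ ∧ γ < 4 * T ∧ riemannZeta (1 / 2 + γ * I) = 0) →
      ∑ γ ∈ F, ‖BP c N γ‖ ^ 2 ≤
        C * T * Real.log T * (1 + Real.log N) ^ 2 * ∑ n ∈ Finset.Icc 1 N, ‖c n‖ ^ 2 / n := by
  obtain ⟨C₁, T₁, hC₁, hT₁, h1⟩ := sobz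
  obtain ⟨C₂, hC₂, h2⟩ := BP_sq hM
  refine ⟨C₁ * (2 * C₂), T₁, by positivity, hT₁, fun T hT N c hN1 hN F hF => ?_⟩
  have hT10 : 10 < T := lt_of_lt_of_le hT₁ hT
  have hlog : 0 < Real.log T := Real.log_pos (by linarith)
  set c1 : ℕ → ℂ := fun n => c n * (-(Real.log n : ℂ) * I) with hc1
  have g1 := h1 (BP c N) (BP c1 N) (BP_deriv c N) (BP_cont c1 N) T hT F hF
  have g2 := h2 N c T (by linarith) hN
  have g3 := h2 N c1 T (by linarith) hN
  have hS0 : 0 ≤ ∑ n ∈ Finset.Icc 1 N, ‖c n‖ ^ 2 / (n : ℝ) :=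
    Finset.sum_nonneg fun n _ => by positivity
  have hlN : 0 ≤ Real.log N := Real.log_nonneg (by exact_mod_cast hN1)
  have h3 : ∑ n ∈ Finset.Icc 1 N, ‖c1 n‖ ^ 2 / (n : ℝ) ≤
      Real.log N ^ 2 * ∑ n ∈ Finset.Icc 1 N, ‖c n‖ ^ 2 / (n : ℝ) := by
    rw [Finset.mul_sum]
    refine Finset.sum_le_sum fun n hn => ?_
    rw [Finset.mem_Icc] at hn
    have hn0 : (0 : ℝ) < n := by exact_mod_cast (by omega : 0 < n)
    have e1 : ‖c1 n‖ = ‖c n‖ * Real.log n := by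
      rw [hc1]
      simp only [norm_mul, norm_neg, Complex.norm_I, mul_one, Complex.norm_real, Real.norm_eq_abs]
      rw [abs_of_nonneg (Real.log_nonneg (by exact_mod_cast hn.1))]
    have e2 : Real.log n ≤ Real.log N := Real.log_le_log hn0 (by exact_mod_cast hn.2)
    have e3 : 0 ≤ Real.log n := Real.log_nonneg (by exact_mod_cast hn.1)
    rw [e1, mul_pow, ← mul_div_assoc, mul_comm (Real.log N ^ 2)]
    exact div_le_div_of_nonneg_right (mul_le_mul_of_nonneg_left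
      (pow_le_pow_left₀ e3 e2 2) (by positivity)) hn0.le
  have h4 : ∫ y in (0 : ℝ)..(5 * T), (2 * ‖BP c N y‖ ^ 2 + ‖BP c1 N y‖ ^ 2) ≤
      2 * C₂ * T * (1 + Real.log N) ^ 2 * ∑ n ∈ Finset.Icc 1 N, ‖c n‖ ^ 2 / (n : ℝ) := by
    have hadd : ∫ y in (0 : ℝ)..(5 * T), (2 * ‖BP c N y‖ ^ 2 + ‖BP c1 N y‖ ^ 2) =
        2 * (∫ y in (0 : ℝ)..(5 * T), ‖BP c N y‖ ^ 2) + ∫ y in (0 : ℝ)..(5 * T), ‖BP c1 N y‖ ^ 2 := by
      rw [← intervalIntegral.integral_const_mul]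
      exact intervalIntegral.integral_add
        ((continuous_const.mul ((BP_cont c N).norm.pow 2)).intervalIntegrable _ _)
        (((BP_cont c1 N).norm.pow 2).intervalIntegrable _ _)
    rw [hadd]
    have h5 : C₂ * T * ∑ n ∈ Finset.Icc 1 N, ‖c1 n‖ ^ 2 / (n : ℝ) ≤
        C₂ * T * (Real.log N ^ 2 * ∑ n ∈ Finset.Icc 1 N, ‖c n‖ ^ 2 / (n : ℝ)) :=
      mul_le_mul_of_nonneg_left h3 (by positivity)
    set S := ∑ n ∈ Finset.Icc 1 N, ‖c n‖ ^ 2 / (n : ℝ) with hS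
    set l := Real.log N with hl
    have h6 : 0 ≤ C₂ * T * S := by positivity
    have h7 : 0 ≤ C₂ * T * S * l := by positivity
    have h8 : 0 ≤ C₂ * T * S * l ^ 2 := by positivity
    nlinarith
  refine g1.trans ((mul_le_mul_of_nonneg_left h4 (by positivity)).trans (le_of_eq ?_))
  ring

/-- Both together. -/
theorem zb (hcel : CELStatement) (hmom : MOM6Statement) (hM : MVTXStatement) :
    ∃ C T0 : ℝ, 0 < C ∧ 10 < T0 ∧ ∀ T : ℝ, T0 ≤ T →
    ∀ (N : ℕ) (c : ℕ → ℂ), 1 ≤ N → (N : ℝ) ≤ T → ∀ F : Finset ℝ,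
      (∀ γ ∈ F, T / 2 < γ ∧ γ < 4 * T ∧ riemannZeta (1 / 2 + γ * I) = 0) →
      ∑ γ ∈ F, ‖deriv riemannZeta (1 / 2 + γ * I)‖ * ‖BP c N γ‖ ≤
        C * T * Real.log T ^ 3 * (1 + Real.log N) *
          Real.sqrt (∑ n ∈ Finset.Icc 1 N, ‖c n‖ ^ 2 / n) := by
  obtain ⟨C₁, T₁, hC₁, hT₁, h1⟩ := zsq hcel hmom
  obtain ⟨C₂, T₂, hC₂, hT₂, h2⟩ := bsq hM
  refine ⟨Real.sqrt (C₁ * C₂), max T₁ T₂, by positivity, lt_max_of_lt_left hT₁,
    fun T hT N c hN1 hN F hF => ?_⟩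
  have hTT₁ : T₁ ≤ T := (le_max_left _ _).trans hT
  have hTT₂ : T₂ ≤ T := (le_max_right _ _).trans hT
  have hT10 : 10 < T := lt_of_lt_of_le hT₁ hTT₁
  have hlN : 0 ≤ Real.log N := Real.log_nonneg (by exact_mod_cast hN1)
  obtain ⟨L, hLdef⟩ : ∃ L, L = Real.log T := ⟨_, rfl⟩
  have g1 := h1 T hTT₁ F hF
  have g2 := h2 T hTT₂ N c hN1 hN F hF
  rw [← hLdef] at g1 g2 ⊢
  have hL1 : 1 ≤ L := by
    rw [hLdef, ← Real.log_exp 1]
    refine Real.log_le_log (Real.exp_pos _) ?_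
    have := Real.exp_one_lt_d9
    linarith
  have hL0 : 0 < L := by linarith
  have hS0 : 0 ≤ ∑ n ∈ Finset.Icc 1 N, ‖c n‖ ^ 2 / (n : ℝ) :=
    Finset.sum_nonneg fun n _ => by positivity
  set S := ∑ n ∈ Finset.Icc 1 N, ‖c n‖ ^ 2 / (n : ℝ) with hS
  have h3 := Finset.sum_mul_sq_le_sq_mul_sq F
    (fun γ : ℝ => ‖deriv riemannZeta (1 / 2 + γ * I)‖) (fun γ : ℝ => ‖BP c N γ‖)
  have hl0 : 0 ≤ ∑ γ ∈ F, ‖deriv riemannZeta (1 / 2 + γ * I)‖ * ‖BP c N γ‖ :=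
    Finset.sum_nonneg fun γ _ => by positivity
  refine (pow_le_pow_iff_left₀ hl0 (by positivity) two_ne_zero).1 ?_
  refine h3.trans ((mul_le_mul g1 g2 (Finset.sum_nonneg fun γ _ => by positivity)
    (by positivity)).trans ?_)
  have e1 : (Real.sqrt (C₁ * C₂) * T * L ^ 3 * (1 + Real.log N) * Real.sqrt S) ^ 2 =
      (C₁ * C₂) * T ^ 2 * L ^ 6 * (1 + Real.log N) ^ 2 * S := by
    have h4 := Real.sq_sqrt (show 0 ≤ C₁ * C₂ by positivity)
    have h5 := Real.sq_sqrt hS0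
    calc _ = Real.sqrt (C₁ * C₂) ^ 2 * T ^ 2 * L ^ 6 * (1 + Real.log N) ^ 2 * Real.sqrt S ^ 2 := by
          ring
      _ = _ := by rw [h4, h5]
  rw [e1]
  have e2 : C₁ * T * L ^ 4 * (C₂ * T * L * (1 + Real.log N) ^ 2 * S) =
      (C₁ * C₂) * T ^ 2 * L ^ 5 * (1 + Real.log N) ^ 2 * S := by ring
  rw [e2]
  have h6 : L ^ 5 ≤ L ^ 6 := pow_le_pow_right₀ hL1 (by norm_num)
  gcongr

/-- The mean of the contribution of the far zeros. -/
theorem farmean (F : Finset ℝ) (a : ℝ → ℝ) (ha : ∀ γ, 0 ≤ a γ) (ψ : ℝ → ℝ) (hψ : Measurable ψ)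
    (hψ0 : ∀ x, 0 ≤ ψ x) {lam κ : ℝ} (hκ : 0 ≤ κ)
    (h : ∫⁻ x in {x : ℝ | lam ≤ |x|}, ENNReal.ofReal (ψ x) ≤ ENNReal.ofReal κ) (E : Set ℝ) :
    ∫⁻ t in E, ENNReal.ofReal (∑ γ ∈ F with lam ≤ |γ - t|, a γ * ψ (γ - t)) ≤
      ENNReal.ofReal (κ * ∑ γ ∈ F, a γ) := by
  classical
  have hmeas : ∀ γ : ℝ, Measurable fun t : ℝ => ENNReal.ofReal
      (if lam ≤ |γ - t| then a γ * ψ (γ - t) else 0) := by
    intro γ
    refine ENNReal.measurable_ofReal.comp (Measurable.ite ?_ ?_ measurable_const)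
    · exact measurableSet_le measurable_const (measurable_const.sub measurable_id).abs
    · exact measurable_const.mul (hψ.comp (measurable_const.sub measurable_id))
  have h1 : ∀ t : ℝ, ENNReal.ofReal (∑ γ ∈ F with lam ≤ |γ - t|, a γ * ψ (γ - t)) =
      ∑ γ ∈ F, ENNReal.ofReal (if lam ≤ |γ - t| then a γ * ψ (γ - t) else 0) := by
    intro t
    rw [Finset.sum_filter, ENNReal.ofReal_sum_of_nonneg]
    intro γ _
    split_ifs
    · exact mul_nonneg (ha γ) (hψ0 _)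
    · exact le_rfl
  calc ∫⁻ t in E, ENNReal.ofReal (∑ γ ∈ F with lam ≤ |γ - t|, a γ * ψ (γ - t)) ≤
      ∫⁻ t : ℝ, ∑ γ ∈ F, ENNReal.ofReal (if lam ≤ |γ - t| then a γ * ψ (γ - t) else 0) := by
        refine (setLIntegral_le_lintegral _ _).trans (le_of_eq ?_)
        exact lintegral_congr h1
    _ = ∑ γ ∈ F, ∫⁻ t : ℝ, ENNReal.ofReal (if lam ≤ |γ - t| then a γ * ψ (γ - t) else 0) :=
        lintegral_finsetSum _ fun γ _ => hmeas γ
    _ ≤ ∑ γ ∈ F, ENNReal.ofReal (a γ) * ENNReal.ofReal κ := by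
        refine Finset.sum_le_sum fun γ _ => ?_
        have h2 : ∫⁻ t : ℝ, ENNReal.ofReal (if lam ≤ |γ - t| then a γ * ψ (γ - t) else 0) =
            ∫⁻ x : ℝ, ENNReal.ofReal (if lam ≤ |x| then a γ * ψ x else 0) :=
          lintegral_sub_left_eq_self
            (fun x => ENNReal.ofReal (if lam ≤ |x| then a γ * ψ x else 0)) γ
        have hms : MeasurableSet {x : ℝ | lam ≤ |x|} :=
          measurableSet_le measurable_const measurable_id.abs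
        have h3 : ∀ x : ℝ, ENNReal.ofReal (if lam ≤ |x| then a γ * ψ x else 0) =
            {x : ℝ | lam ≤ |x|}.indicator
              (fun x => ENNReal.ofReal (a γ) * ENNReal.ofReal (ψ x)) x := by
          intro x
          rw [Set.indicator_apply]
          simp only [Set.mem_ofPred_eq]
          split_ifs
          · rw [ENNReal.ofReal_mul (ha γ)]
          · rw [ENNReal.ofReal_zero]
        rw [h2, lintegral_congr h3, lintegral_indicator hms,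
          lintegral_const_mul' _ _ ENNReal.ofReal_ne_top]
        exact mul_le_mul_right h _
    _ = ENNReal.ofReal (κ * ∑ γ ∈ F, a γ) := by
        rw [Finset.mul_sum, ENNReal.ofReal_sum_of_nonneg fun γ _ => mul_nonneg hκ (ha γ)]
        refine Finset.sum_congr rfl fun γ _ => ?_
        rw [ENNReal.ofReal_mul hκ, mul_comm]

end Pool.Agent.Lib.MP_6bc78b_nt.GP.H33F
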