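import Pool.Agent.Lib.MP_6bc78b_nt.GP.H33.Far
import Pool.Agent.Lib.MP_6bc78b_nt.GP.H43.Defs10b
import Pool.Agent.Lib.MP_6bc78b_nt.GP.H69.Mvtx
import Pool.Agent.Lib.MP_6bc78b_nt.GP.H91.Cel
import Pool.Agent.Lib.MP_6bc78b_nt.GP.H97.Mom6
import Pool.Agent.Lib.MP_6bc78b_nt.GP.H64.Zms

/-! Project GP10, row FARB (helper33): the far zeros in mean. -/

set_option autoImplicit false

open Complex Filter Topology MeasureTheory ArithmeticFunction Set
open scoped ENNReal

namespace Pool.Agent.Lib.MP_6bc78b_nt.GP.H33F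

open Pool.Agent.Lib.MP_6bc78b_nt Pool.Agent.Lib.MP_6bc78b_nt.MS Pool.Agent.Lib.MP_6bc78b_nt.MS.P1
open Pool.Agent.Lib.MP_6bc78b_nt.GP.G7 Pool.Agent.Lib.MP_6bc78b_nt.GP.G10

theorem pB_eq (S : Finset ℕ) (β : ℕ → ℝ) (N : ℕ) (h1 : ∀ m ∈ S, 1 ≤ m) (h2 : ∀ m ∈ S, m ≤ N)
    (γ : ℝ) : pB S β (1 / 2 + γ * I) = BP (fun n => if n ∈ S then (β n : ℂ) else 0) N γ := by
  classical
  unfold pB BP
  have hsub : S ⊆ Finset.Icc 1 N := fun m hm => Finset.mem_Icc.2 ⟨h1 m hm, h2 m hm⟩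
  rw [← Finset.sum_subset hsub]
  · refine Finset.sum_congr rfl fun m hm => ?_
    beta_reduce
    rw [if_pos hm]
  · intro m _ hm
    beta_reduce
    rw [if_neg hm, zero_mul]

theorem mol_sq {S : Finset ℕ} {β : ℕ → ℝ} {N : ℝ} (h : Mol S β N 1) (M : ℕ)
    (h2 : ∀ m ∈ S, m ≤ M) :
    ∑ n ∈ Finset.Icc 1 M, ‖(if n ∈ S then (β n : ℂ) else 0)‖ ^ 2 / (n : ℝ) ≤ 2 := by
  classical
  have hsub : S ⊆ Finset.Icc 1 M := fun m hm => Finset.mem_Icc.2 ⟨h.one_le m hm, h2 m hm⟩
  rw [← Finset.sum_subset hsub]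
  · have h3 := h.sum_lcm
    refine le_trans (Finset.sum_le_sum fun m hm => ?_) (le_trans h3 (by norm_num))
    rw [if_pos hm, Complex.norm_real, Real.norm_eq_abs, sq_abs]
    refine le_trans (le_of_eq ?_) (Finset.single_le_sum
      (f := fun m' => β m * β m' / (Nat.lcm m m' : ℝ)) (fun m' _ => ?_) hm)
    · rw [Nat.lcm_self, sq]
    · have := h.nonneg m
      have := h.nonneg m'
      positivity
  · intro m _ hm
    rw [if_neg hm]
    simp

/-- The window away from its support. -/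
theorem psi_le {l lam x : ℝ} (hl : 0 < l) (hlam : 0 < lam) (hx : lam ≤ |x|) :
    Real.exp (-((|x| - lam / 2) ^ 2 / (2 * (lam / (10 * Real.sqrt l)) ^ 2))) ≤
      Real.exp (-(11 * l)) * Real.exp (-(l / lam ^ 2 * x ^ 2)) := by
  rw [← Real.exp_add]
  refine Real.exp_le_exp.2 ?_
  have h1 : (lam / (10 * Real.sqrt l)) ^ 2 = lam ^ 2 / (100 * l) := by
    rw [div_pow, mul_pow, Real.sq_sqrt hl.le]
    norm_num
  have h2 : (|x| - lam / 2) ^ 2 / (2 * (lam ^ 2 / (100 * l))) =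
      50 * l * ((|x| - lam / 2) / lam) ^ 2 := by
    field_simp
    ring
  have h3 : l / lam ^ 2 * x ^ 2 = l * (|x| / lam) ^ 2 := by
    rw [div_pow, sq_abs]
    ring
  rw [h1, h2, h3]
  obtain ⟨y, hy⟩ : ∃ y, y = |x| / lam := ⟨_, rfl⟩
  have hy1 : 1 ≤ y := by
    rw [hy, le_div_iff₀ hlam]
    linarith
  have h4 : (|x| - lam / 2) / lam = y - 1 / 2 := by
    rw [hy]
    field_simp
  rw [h4, ← hy]
  have h5 : 11 + y ^ 2 ≤ 50 * (y - 1 / 2) ^ 2 := by nlinarith
  nlinarith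

theorem psi_int {l lam : ℝ} (hl : 1 ≤ l) (hlam : 0 < lam) :
    ∫⁻ x in {x : ℝ | lam ≤ |x|}, ENNReal.ofReal
      (Real.exp (-((|x| - lam / 2) ^ 2 / (2 * (lam / (10 * Real.sqrt l)) ^ 2)))) ≤
      ENNReal.ofReal (2 * lam * Real.exp (-(11 * l))) := by
  have hl0 : 0 < l := by linarith
  have hms : MeasurableSet {x : ℝ | lam ≤ |x|} := measurableSet_le measurable_const measurable_id.abs
  have hb : 0 < l / lam ^ 2 := by positivity
  have hint : Integrable fun x : ℝ => Real.exp (-(l / lam ^ 2) * x ^ 2) :=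
    integrable_exp_neg_mul_sq hb
  have h1 : ∫⁻ x : ℝ, ENNReal.ofReal (Real.exp (-(l / lam ^ 2 * x ^ 2))) ≤
      ENNReal.ofReal (2 * lam) := by
    have h2 : ∀ x : ℝ, Real.exp (-(l / lam ^ 2 * x ^ 2)) = Real.exp (-(l / lam ^ 2) * x ^ 2) := by
      intro x
      rw [neg_mul]
    simp only [h2]
    rw [← ofReal_integral_eq_lintegral_ofReal hint (Eventually.of_forall fun x => (Real.exp_pos _).le),
      integral_gaussian]
    refine ENNReal.ofReal_le_ofReal ?_
    rw [Real.sqrt_le_left (by positivity), div_div_eq_mul_div, div_le_iff₀ hl0]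
    have h3 : Real.pi ≤ 4 := Real.pi_le_four
    have h4 : 0 < lam ^ 2 := by positivity
    nlinarith
  calc _ ≤ ∫⁻ x in {x : ℝ | lam ≤ |x|}, ENNReal.ofReal (Real.exp (-(11 * l))) *
        ENNReal.ofReal (Real.exp (-(l / lam ^ 2 * x ^ 2))) := by
        refine setLIntegral_mono' hms fun x hx => ?_
        rw [← ENNReal.ofReal_mul (Real.exp_pos _).le]
        exact ENNReal.ofReal_le_ofReal (psi_le hl0 hlam hx)
    _ = ENNReal.ofReal (Real.exp (-(11 * l))) * ∫⁻ x in {x : ℝ | lam ≤ |x|},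
        ENNReal.ofReal (Real.exp (-(l / lam ^ 2 * x ^ 2))) :=
        lintegral_const_mul' _ _ ENNReal.ofReal_ne_top
    _ ≤ ENNReal.ofReal (Real.exp (-(11 * l))) * ENNReal.ofReal (2 * lam) :=
        mul_le_mul_right ((setLIntegral_le_lintegral _ _).trans h1) _
    _ = _ := by
        rw [← ENNReal.ofReal_mul (Real.exp_pos _).le, mul_comm]

/-- Row FARB. -/
theorem farb : FARBStatement := by
  intro _ lam hlam
  obtain ⟨C, T₁, hC, hT₁, hz⟩ := zb H91E.cel (H97.mom6 H64.zms) G7.mvtx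
  obtain ⟨-, -, -, -, -, hfin, -⟩ := MS.P4.H30.zfac
  have hlog : Tendsto Real.log atTop atTop := Real.tendsto_log_atTop
  have hll : Tendsto (fun T : ℝ => Real.log (Real.log T)) atTop atTop := hlog.comp hlog
  -- numbers
  have e1 : ∀ᶠ x : ℝ in atTop, x ^ 5 ≤ Real.exp x := by
    have h := (Real.isLittleO_pow_exp_atTop (n := 5)).bound (c := 1) one_pos
    filter_upwards [h, eventually_ge_atTop 0] with x hx h0
    rw [one_mul, Real.norm_of_nonneg (by positivity), Real.norm_of_nonneg (Real.exp_pos _).le] at hx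
    exact hx
  have e2 : ∀ᶠ x : ℝ in atTop, C * 2 * (2 * lam) * (1 + x ^ 5) ≤ Real.exp x := by
    have h := (Real.isLittleO_pow_exp_atTop (n := 6)).bound (c := 1) one_pos
    filter_upwards [h, eventually_ge_atTop (C * 2 * (2 * lam) * 2), eventually_ge_atTop 1]
      with x hx h0 h1
    rw [one_mul, Real.norm_of_nonneg (by positivity), Real.norm_of_nonneg (Real.exp_pos _).le] at hx
    refine le_trans ?_ hx
    have h3 : 1 ≤ x ^ 5 := one_le_pow₀ h1
    have h4 : 0 ≤ C * 2 * (2 * lam) := by positivity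
    calc C * 2 * (2 * lam) * (1 + x ^ 5) ≤ C * 2 * (2 * lam) * (2 * x ^ 5) :=
          mul_le_mul_of_nonneg_left (by linarith) h4
      _ = (C * 2 * (2 * lam) * 2) * x ^ 5 := by ring
      _ ≤ x * x ^ 5 := mul_le_mul_of_nonneg_right h0 (by positivity)
      _ = x ^ 6 := by ring
  obtain ⟨T₂, h2⟩ := eventually_atTop.1 (hll.eventually ((e1.and e2).and (eventually_ge_atTop 1)))
  refine ⟨max T₁ T₂, lt_max_of_lt_left hT₁, fun T S β hT hMol => ?_⟩
  have hTT₁ : T₁ ≤ T := (le_max_left _ _).trans hT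
  have hTT₂ : T₂ ≤ T := (le_max_right _ _).trans hT
  have hT10 : 10 < T := lt_of_lt_of_le hT₁ hTT₁
  obtain ⟨⟨k1, k2⟩, k3⟩ := h2 T hTT₂
  have hL0 : 0 < Real.log T := Real.log_pos (by linarith)
  have hexp : Real.exp (Real.log (Real.log T)) = Real.log T := Real.exp_log hL0
  rw [hexp] at k1 k2
  set l := Real.log (Real.log T) with hl
  set N : ℕ := ⌊Real.exp (l ^ 5)⌋₊ with hN
  have hl0 : 0 < l := by linarith
  have hN1 : 1 ≤ N := by
    rw [hN, Nat.one_le_floor_iff]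
    exact Real.one_le_exp (by positivity)
  have hNle : (N : ℝ) ≤ Real.exp (l ^ 5) := Nat.floor_le (Real.exp_pos _).le
  have hNT : (N : ℝ) ≤ T := hNle.trans (by
    rw [← Real.exp_log (by linarith : 0 < T)]
    exact Real.exp_le_exp.2 k1)
  have hlogN : Real.log N ≤ l ^ 5 := by
    have h3 : (0 : ℝ) < N := by exact_mod_cast hN1
    have := Real.log_le_log h3 hNle
    rwa [Real.log_exp] at this
  have hSN : ∀ m ∈ S, m ≤ N := fun m hm => Nat.le_floor (hMol.le m hm)
  have hZ : {γ : ℝ | T / 2 < γ ∧ γ < 4 * T ∧ riemannZeta (1 / 2 + γ * I) = 0}.Finite :=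
    (hfin (4 * T)).subset fun γ hγ => ⟨by linarith [hγ.1], hγ.2.1.le, hγ.2.2⟩
  set F : Finset ℝ := hZ.toFinset with hF
  have hFm : ∀ γ, γ ∈ F ↔ (T / 2 < γ ∧ γ < 4 * T ∧ riemannZeta (1 / 2 + γ * I) = 0) := by
    intro γ
    rw [hF, Set.Finite.mem_toFinset]
    rfl
  set a : ℝ → ℝ := fun γ => ‖deriv riemannZeta (1 / 2 + γ * I)‖ * ‖pB S β (1 / 2 + γ * I)‖ with ha
  set ψ : ℝ → ℝ := fun x => Real.exp (-((|x| - lam / 2) ^ 2 / (2 * (lam / (10 * Real.sqrt l)) ^ 2)))
    with hψ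
  have hSFB : ∀ t, SFB T lam S β t = ∑ γ ∈ F with lam ≤ |γ - t|, a γ * ψ (γ - t) := by
    intro t
    unfold SFB
    have hset : {γ : ℝ | (T / 2 < γ ∧ γ < 4 * T ∧ riemannZeta (1 / 2 + γ * I) = 0) ∧
        lam ≤ |γ - t|} = ((F.filter fun γ => lam ≤ |γ - t| : Finset ℝ) : Set ℝ) := by
      ext γ
      rw [Finset.mem_coe, Finset.mem_filter, hFm]
      rfl
    rw [hset, finsum_mem_coe_finset]
    rfl
  have hmain := farmean F a (fun γ => by positivity) ψ (by fun_prop) (fun x => (Real.exp_pos _).le)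
    (lam := lam) (κ := 2 * lam * Real.exp (-(11 * l))) (by positivity)
    (psi_int k3 (by linarith)) (Icc T (2 * T))
  calc ∫⁻ t in Icc T (2 * T), ENNReal.ofReal (SFB T lam S β t) =
      ∫⁻ t in Icc T (2 * T), ENNReal.ofReal (∑ γ ∈ F with lam ≤ |γ - t|, a γ * ψ (γ - t)) := by
        simp only [hSFB]
    _ ≤ ENNReal.ofReal (2 * lam * Real.exp (-(11 * l)) * ∑ γ ∈ F, a γ) := hmain
    _ ≤ ENNReal.ofReal T := by
        refine ENNReal.ofReal_le_ofReal ?_
        have h4 := hz T hTT₁ N (fun n => if n ∈ S then (β n : ℂ) else 0) hN1 hNT F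
          (fun γ hγ => (hFm γ).1 hγ)
        have h5 : ∑ γ ∈ F, a γ ≤ C * T * Real.log T ^ 3 * (1 + l ^ 5) * 2 := by
          have h6 : ∑ γ ∈ F, a γ = ∑ γ ∈ F, ‖deriv riemannZeta (1 / 2 + γ * I)‖ *
              ‖BP (fun n => if n ∈ S then (β n : ℂ) else 0) N γ‖ := by
            refine Finset.sum_congr rfl fun γ _ => ?_
            rw [ha, ← pB_eq S β N hMol.one_le hSN γ]
          rw [h6]
          refine h4.trans ?_
          have h7 : Real.sqrt (∑ n ∈ Finset.Icc 1 N,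
              ‖(if n ∈ S then (β n : ℂ) else 0)‖ ^ 2 / (n : ℝ)) ≤ 2 := by
            rw [Real.sqrt_le_left (by norm_num)]
            exact (mol_sq hMol N hSN).trans (by norm_num)
          have h8 : 0 ≤ Real.log N := Real.log_nonneg (by exact_mod_cast hN1)
          have h9 : 0 ≤ l ^ 5 := by positivity
          gcongr
        have hexpn : Real.exp (-(11 * l)) * Real.log T ^ 11 = 1 := by
          rw [← hexp, ← Real.exp_nat_mul, ← Real.exp_add]
          push_cast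
          rw [neg_add_cancel, Real.exp_zero]
        have hL1 : 1 ≤ Real.log T := by
          rw [← hexp]
          exact Real.one_le_exp hl0.le
        have h10 : 0 < Real.exp (-(11 * l)) := Real.exp_pos _
        calc 2 * lam * Real.exp (-(11 * l)) * ∑ γ ∈ F, a γ ≤
            2 * lam * Real.exp (-(11 * l)) * (C * T * Real.log T ^ 3 * (1 + l ^ 5) * 2) :=
              mul_le_mul_of_nonneg_left h5 (by positivity)
          _ = (C * 2 * (2 * lam) * (1 + l ^ 5)) * (Real.exp (-(11 * l)) * Real.log T ^ 3 * T) := by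
              ring
          _ ≤ Real.log T * (Real.exp (-(11 * l)) * Real.log T ^ 3 * T) :=
              mul_le_mul_of_nonneg_right k2 (by positivity)
          _ = Real.exp (-(11 * l)) * Real.log T ^ 4 * T := by ring
          _ ≤ Real.exp (-(11 * l)) * Real.log T ^ 11 * T := by
              have : Real.log T ^ 4 ≤ Real.log T ^ 11 := pow_le_pow_right₀ hL1 (by norm_num)
              gcongr
          _ = T := by rw [hexpn, one_mul]

end Pool.Agent.Lib.MP_6bc78b_nt.GP.H33F
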